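import Mathlib
import Pool.Agent.Helper12.LW.Defs

/-!
# N2: feasibility with four bounds
-/

namespace Pool.Agent.Helper38.LW2

open Matrix Pool.Agent.Helper12.LW

/-- the weight -/
noncomputable def wt (ka t : ℝ) : ℝ := (1 / 2 - ka * t ^ 2) / (1 - t) ^ 2

theorem wt_le (ka t : ℝ) (h1 : t < 1 / 2) (hka : 1 / 2 ≤ ka * (1 - 2 * t + 2 * t ^ 2)) :
    wt ka t ≤ ka := by
  have h : 0 < (1 - t) ^ 2 := by
    have : 0 < 1 - t := by linarith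
    positivity
  rw [wt, div_le_iff₀ h]
  nlinarith

theorem wt_mul (ka t : ℝ) (h1 : t < 1 / 2) : wt ka t * (1 - t) ^ 2 = 1 / 2 - ka * t ^ 2 := by
  have h : (1 - t) ^ 2 ≠ 0 := by
    have : 0 < 1 - t := by linarith
    positivity
  rw [wt, div_mul_cancel₀ _ h]

theorem wt_nonneg (ka t : ℝ) (hka1 : ka ≤ 1) (h0 : 0 ≤ t) (h1 : t < 1 / 2) : 0 ≤ wt ka t := by
  apply div_nonneg _ (sq_nonneg _)
  have : t ^ 2 ≤ 1 / 4 := by nlinarith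
  nlinarith [mul_le_mul_of_nonneg_right hka1 (sq_nonneg t)]

/-- one large entry -/
theorem big (ka t0 e0 e1 e2 e3 a1 a2 a3 : ℝ) (hka1 : ka ≤ 1) (hka0 : 0 ≤ ka) (h0 : 0 ≤ t0) (h1 : t0 < 1 / 2)
    (hka : 1 / 2 ≤ ka * (1 - 2 * t0 + 2 * t0 ^ 2)) (n1 : 0 ≤ e1) (n2 : 0 ≤ e2) (n3 : 0 ≤ e3)
    (hs : e0 + e1 + e2 + e3 ≤ 1) (g : 1 / 2 ≤ e0) (g' : e0 ≤ 1 - t0) (l1 : a1 ≤ ka) (l2 : a2 ≤ ka)
    (l3 : a3 ≤ ka) :
    wt ka t0 * e0 ^ 2 + (a1 * e1 ^ 2 + a2 * e2 ^ 2 + a3 * e3 ^ 2) ≤ 1 / 2 := by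
  have s1 : a1 * e1 ^ 2 + a2 * e2 ^ 2 + a3 * e3 ^ 2 ≤ ka * (1 - e0) ^ 2 := by
    have r1 := mul_le_mul_of_nonneg_right l1 (sq_nonneg e1)
    have r2 := mul_le_mul_of_nonneg_right l2 (sq_nonneg e2)
    have r3 := mul_le_mul_of_nonneg_right l3 (sq_nonneg e3)
    have r4 : e1 ^ 2 + e2 ^ 2 + e3 ^ 2 ≤ (1 - e0) ^ 2 := by
      have : (e1 + e2 + e3) ^ 2 ≤ (1 - e0) ^ 2 := pow_le_pow_left₀ (by linarith) (by linarith) 2
      nlinarith [mul_nonneg n1 n2, mul_nonneg n1 n3, mul_nonneg n2 n3]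
    nlinarith [mul_le_mul_of_nonneg_left r4 hka0]
  have hw := wt_mul ka t0 h1
  have hwn := wt_nonneg ka t0 hka1 h0 h1
  have hwl := wt_le ka t0 h1 hka
  generalize wt ka t0 = a at *
  -- convexity between `1 / 2` and `1 - t0`
  have hid : (a * e0 ^ 2 + ka * (1 - e0) ^ 2) * (1 - t0 - 1 / 2) =
      (a * (1 / 2) ^ 2 + ka * (1 - 1 / 2) ^ 2) * (1 - t0 - e0)
      + (a * (1 - t0) ^ 2 + ka * (1 - (1 - t0)) ^ 2) * (e0 - 1 / 2)
      - (a + ka) * ((e0 - 1 / 2) * (1 - t0 - e0)) * (1 - t0 - 1 / 2) := by ring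
  have hv : a * (1 - t0) ^ 2 + ka * (1 - (1 - t0)) ^ 2 = 1 / 2 := by rw [hw]; ring
  have hu : a * (1 / 2) ^ 2 + ka * (1 - 1 / 2) ^ 2 ≤ 1 / 2 := by nlinarith
  have hpos : 0 < 1 - t0 - 1 / 2 := by linarith
  have hlast : 0 ≤ (a + ka) * ((e0 - 1 / 2) * (1 - t0 - e0)) * (1 - t0 - 1 / 2) :=
    mul_nonneg (mul_nonneg (by linarith) (mul_nonneg (by linarith) (by linarith))) hpos.le
  have hfin : (a * e0 ^ 2 + ka * (1 - e0) ^ 2) * (1 - t0 - 1 / 2) ≤ 1 / 2 * (1 - t0 - 1 / 2) := by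
    rw [hid, hv]
    have := mul_le_mul_of_nonneg_right hu (show 0 ≤ 1 - t0 - e0 by linarith)
    linarith
  have := le_of_mul_le_mul_right hfin hpos
  linarith

theorem half (ka : ℝ) (hka1 : ka ≤ 1) (t e : Fin 4 → ℝ) (h0 : ∀ k, 0 ≤ t k) (h1 : ∀ k, t k < 1 / 2)
    (hka : ∀ k, 1 / 2 ≤ ka * (1 - 2 * t k + 2 * t k ^ 2)) (he : ∀ k, 0 ≤ e k)
    (het : ∀ k, e k ≤ 1 - t k) (hs : ∑ k, e k ≤ 1) : ∑ k, wt ka (t k) * e k ^ 2 ≤ 1 / 2 := by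
  have hka0 : 0 ≤ ka := (wt_nonneg ka (t 0) hka1 (h0 0) (h1 0)).trans (wt_le ka (t 0) (h1 0) (hka 0))
  have hl : ∀ k, wt ka (t k) ≤ ka := fun k => wt_le ka (t k) (h1 k) (hka k)
  rw [Fin.sum_univ_four] at hs ⊢
  by_cases g0 : 1 / 2 ≤ e 0
  · have := big ka (t 0) (e 0) (e 1) (e 2) (e 3) _ _ _ hka1 hka0 (h0 0) (h1 0) (hka 0) (he 1) (he 2) (he 3)
      (by linarith) g0 (het 0) (hl 1) (hl 2) (hl 3)
    linarith
  by_cases g1 : 1 / 2 ≤ e 1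
  · have := big ka (t 1) (e 1) (e 0) (e 2) (e 3) _ _ _ hka1 hka0 (h0 1) (h1 1) (hka 1) (he 0) (he 2) (he 3)
      (by linarith) g1 (het 1) (hl 0) (hl 2) (hl 3)
    linarith
  by_cases g2 : 1 / 2 ≤ e 2
  · have := big ka (t 2) (e 2) (e 0) (e 1) (e 3) _ _ _ hka1 hka0 (h0 2) (h1 2) (hka 2) (he 0) (he 1) (he 3)
      (by linarith) g2 (het 2) (hl 0) (hl 1) (hl 3)
    linarith
  by_cases g3 : 1 / 2 ≤ e 3
  · have := big ka (t 3) (e 3) (e 0) (e 1) (e 2) _ _ _ hka1 hka0 (h0 3) (h1 3) (hka 3) (he 0) (he 1) (he 2)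
      (by linarith) g3 (het 3) (hl 0) (hl 1) (hl 2)
    linarith
  push Not at g0 g1 g2 g3
  have key : ∀ k, e k < 1 / 2 → wt ka (t k) * e k ^ 2 ≤ 1 / 2 * e k := by
    intro k hk
    have h2 : e k ^ 2 ≤ 1 / 2 * e k := by nlinarith [he k]
    have h3 := mul_le_mul_of_nonneg_right ((hl k).trans hka1) (sq_nonneg (e k))
    linarith
  have k0 := key 0 g0
  have k1 := key 1 g1
  have k2 := key 2 g2
  have k3 := key 3 g3
  linarith

/-- N2 (feasibility with four bounds). -/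
theorem feas2 (K : Set (Fin 3 → ℝ)) (P : Fin 4 → Fin 3 → ℤ) (v : Fin 4 → Fin 3 → ℝ) (hv : Sep4 K P v)
    (ka : ℝ) (hka1 : ka ≤ 1) (t : Fin 4 → ℝ) (h0 : ∀ k, 0 ≤ t k) (h1 : ∀ k, t k < 1 / 2)
    (hka : ∀ k, 1 / 2 ≤ ka * (1 - 2 * t k + 2 * t k ^ 2))
    (hk : ∀ k, ∀ x ∈ K, v k ⬝ᵥ (toR (P k) - x) ≤ 1 - t k) :
    ∀ x ∈ K, ∀ x' ∈ K, ∑ j, (1 / 2 - ka * t j ^ 2) / (1 - t j) ^ 2 * (v j ⬝ᵥ (x - x')) ^ 2 ≤ 1 := by
  intro x hx x' hx'
  have hs : ∀ y : Fin 3 → ℝ, ∑ j, v j ⬝ᵥ (toR (P j) - y) = 1 := by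
    intro y
    have h1 : ∑ j, v j ⬝ᵥ y = 0 := by
      rw [← sum_dotProduct, hv.sum_zero, zero_dotProduct]
    have h2 : ∑ j, v j ⬝ᵥ (toR (P j) - y) = ∑ j, v j ⬝ᵥ toR (P j) - ∑ j, v j ⬝ᵥ y := by
      rw [← Finset.sum_sub_distrib]
      exact Finset.sum_congr rfl fun j _ => dotProduct_sub _ _ _
    rw [h2, hv.norm_one, h1, sub_zero]
  have hnn : ∀ y ∈ K, ∀ j, 0 ≤ v j ⬝ᵥ (toR (P j) - y) := by
    intro y hy j
    rw [dotProduct_sub]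
    linarith [hv.sep j y hy]
  have hd : ∀ j, v j ⬝ᵥ (x - x') = v j ⬝ᵥ (toR (P j) - x') - v j ⬝ᵥ (toR (P j) - x) := by
    intro j
    rw [dotProduct_sub, dotProduct_sub, dotProduct_sub]
    ring
  -- the positive and the negative part
  set p : Fin 4 → ℝ := fun j => v j ⬝ᵥ (toR (P j) - x') with hp
  set q : Fin 4 → ℝ := fun j => v j ⬝ᵥ (toR (P j) - x) with hq
  have hp0 : ∀ j, 0 ≤ p j := hnn x' hx'
  have hq0 : ∀ j, 0 ≤ q j := hnn x hx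
  have A := half ka hka1 t (fun j => max (p j - q j) 0) h0 h1 hka (fun j => le_max_right _ _)
    (fun j => max_le (by have := hk j x' hx'; have := hq0 j; simp only [hp, hq] at *; linarith)
      (by have := h1 j; linarith))
    (by
      rw [← hs x']
      exact Finset.sum_le_sum fun j _ => max_le (by have := hq0 j; simp only [hp, hq] at *; linarith) (hp0 j))
  have B := half ka hka1 t (fun j => max (q j - p j) 0) h0 h1 hka (fun j => le_max_right _ _)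
    (fun j => max_le (by have := hk j x hx; have := hp0 j; simp only [hp, hq] at *; linarith)
      (by have := h1 j; linarith))
    (by
      rw [← hs x]
      exact Finset.sum_le_sum fun j _ => max_le (by have := hp0 j; simp only [hp, hq] at *; linarith) (hq0 j))
  have C : ∀ j, (1 / 2 - ka * t j ^ 2) / (1 - t j) ^ 2 * (v j ⬝ᵥ (x - x')) ^ 2 =
      wt ka (t j) * max (p j - q j) 0 ^ 2 + wt ka (t j) * max (q j - p j) 0 ^ 2 := by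
    intro j
    have e : v j ⬝ᵥ (x - x') = p j - q j := hd j
    rw [e, ← mul_add, wt]
    congr 1
    rcases le_total (p j) (q j) with h | h
    · rw [max_eq_right (by linarith : p j - q j ≤ 0), max_eq_left (by linarith : 0 ≤ q j - p j)]
      ring
    · rw [max_eq_left (by linarith : 0 ≤ p j - q j), max_eq_right (by linarith : q j - p j ≤ 0)]
      ring
  rw [Finset.sum_congr rfl fun j _ => C j, Finset.sum_add_distrib]
  linarith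

end Pool.Agent.Helper38.LW2
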